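import Mathlib

/-! Sums over geometric sequences. -/

set_option autoImplicit false

namespace Pool.Agent.Y8.SU

/-- telescoping bound -/
lemma tele {ρ a : ℝ} (hρ : 2 ≤ ρ) (ha : 0 ≤ a) :
    a / (1 + a ^ 2) ≤ 6 * (ρ * a / (1 + ρ * a) - a / (1 + a)) := by
  have h1 : 0 < 1 + ρ * a := by positivity
  have h2 : 0 < 1 + a := by positivity
  have h3 : 0 < 1 + a ^ 2 := by positivity
  have e : ρ * a / (1 + ρ * a) - a / (1 + a) = a * (ρ - 1) / ((1 + ρ * a) * (1 + a)) := by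
    field_simp
    ring
  rw [e, ← mul_div_assoc, div_le_div_iff₀ h3 (by positivity)]
  have h4 : (1 + ρ * a) * (1 + a) ≤ 6 * (ρ - 1) * (1 + a ^ 2) := by
    nlinarith [sq_nonneg (a - 1), mul_nonneg (by linarith : 0 ≤ ρ - 2) (sq_nonneg (a - 1)),
      mul_nonneg (by linarith : 0 ≤ ρ - 2) (sq_nonneg a), sq_nonneg a]
  calc a * ((1 + ρ * a) * (1 + a)) ≤ a * (6 * (ρ - 1) * (1 + a ^ 2)) := by gcongr
    _ = _ := by ring

/-- the sum over a geometric sequence -/
lemma geo_sum {ρ : ℝ} (hρ : 2 ≤ ρ) {a : ℕ → ℝ} (h0 : ∀ n, 0 ≤ a n)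
    (hs : ∀ n, a (n + 1) = ρ * a n) (N : ℕ) :
    ∑ n ∈ Finset.range N, a n / (1 + a n ^ 2) ≤ 6 := by
  have h1 : ∀ N : ℕ, ∑ n ∈ Finset.range N, a n / (1 + a n ^ 2) ≤
      6 * (a N / (1 + a N) - a 0 / (1 + a 0)) := by
    intro N
    induction N with
    | zero => simp
    | succ N ih =>
      rw [Finset.sum_range_succ]
      have h2 := tele hρ (h0 N)
      rw [← hs N] at h2
      linarith
  refine (h1 N).trans ?_
  have h2 : a N / (1 + a N) ≤ 1 := by
    have := h0 N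
    rw [div_le_one (by positivity)]
    linarith
  have h3 : 0 ≤ a 0 / (1 + a 0) := by
    have := h0 0
    positivity
  linarith

end Pool.Agent.Y8.SU
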