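import Pool.Agent.Y5.S2.Stm
import Pool.Agent.Y6.S.Conv
import Pool.Agent.Y710.EP.PERT5
import Pool.Agent.Y8.SU.Geo

/-! The rate of the blow-up for the fields (`S_SUP6`). -/

open Set Filter Topology MeasureTheory

set_option autoImplicit false

namespace Pool.Agent.Y8.SU

open Pool.Agent.Y5 Pool.Agent.Y5.D Pool.Agent.Y5.E Pool.Agent.Y5.F Pool.Agent.Y5.S2
open Pool.Agent.Y710.EP (nm Pu Nice nm_sq)

/-! ### Lattice points -/

/-- the lattice points of a cube -/
noncomputable def box (m : ℕ) : Finset Z3 := Fintype.piFinset fun _ => Finset.Icc (-(m : ℤ)) m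

lemma box_card (m : ℕ) : (box m).card = (2 * m + 1) ^ 3 := by
  unfold box
  rw [Fintype.card_piFinset]
  simp only [Int.card_Icc, Finset.prod_const, Finset.card_univ, Fintype.card_fin]
  congr 1
  omega

lemma mem_box {k : Z3} {R : ℝ} (h : ‖vec k‖ ≤ R) : k ∈ box ⌊R⌋₊ := by
  unfold box
  rw [Fintype.mem_piFinset]
  intro i
  have h1 : |(k i : ℝ)| ≤ R := by
    refine le_trans ?_ h
    have := EuclideanSpace.norm_eq (vec k)
    rw [this]
    apply Real.abs_le_sqrt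
    have h2 : (k i : ℝ) ^ 2 = ‖vec k i‖ ^ 2 := by
      unfold vec
      simp
    rw [h2]
    exact Finset.single_le_sum (f := fun j => ‖vec k j‖ ^ 2) (fun j _ => sq_nonneg _)
      (Finset.mem_univ i)
  have h3 : ((k i).natAbs : ℝ) ≤ R := by
    rw [Nat.cast_natAbs]
    push_cast
    exact h1
  have h4 : (k i).natAbs ≤ ⌊R⌋₊ := Nat.le_floor h3
  rw [Finset.mem_Icc]
  omega

lemma box_le {R : ℝ} (h : 1 ≤ R) : ((box ⌊R⌋₊).card : ℝ) ≤ 27 * R ^ 3 := by
  rw [box_card]
  push_cast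
  have h1 : (⌊R⌋₊ : ℝ) ≤ R := Nat.floor_le (by linarith)
  calc (2 * (⌊R⌋₊ : ℝ) + 1) ^ 3 ≤ (3 * R) ^ 3 := by gcongr; linarith
    _ = _ := by ring

section conc

variable {J : Type} {g : J → ℕ} {σ : J → J} {τ : J → ℝ}
  {ν κ μ lam Λ M A : ℝ} {F L C ℓ N G : ℕ → ℝ} {B : ℕ → ℕ → ℝ} {e : Ix J → Fam}

/-- the frequencies of the group `n` -/
noncomputable def S (e : Ix J → Fam) (g : J → ℕ) (F : ℕ → ℝ) (n : ℕ) : Finset Z3 := by
  classical
  exact (box ⌊F n⌋₊).filter fun k => ∃ a, gr g a = n ∧ e a k ≠ 0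

lemma mem_S (hc : Conc6 ν κ μ lam g σ τ F L ℓ N G e) {a : Ix J} {k : Z3} (h : e a k ≠ 0) :
    k ∈ S e g F (gr g a) := by
  classical
  unfold S
  rw [Finset.mem_filter]
  exact ⟨mem_box (hc.fsupp a k h).2, a, rfl, h⟩

lemma of_S {n : ℕ} {k : Z3} (h : k ∈ S e g F n) : ∃ a, gr g a = n ∧ e a k ≠ 0 := by
  classical
  unfold S at h
  rw [Finset.mem_filter] at h
  exact h.2

lemma F_one (hc : Conc6 ν κ μ lam g σ τ F L ℓ N G e) (n : ℕ) : 1 ≤ F n := by
  have h1 : ∃ k, e (Sum.inl n) k ≠ 0 := by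
    by_contra hcon
    push Not at hcon
    have h1 := (hc.orth (Sum.inl n) (Sum.inl n)).1 rfl
    unfold pair at h1
    simp [hcon] at h1
  obtain ⟨k, hk⟩ := h1
  have := hc.fsupp _ k hk
  exact this.1.trans this.2

lemma card_S (hc : Conc6 ν κ μ lam g σ τ F L ℓ N G e) (n : ℕ) :
    ((S e g F n).card : ℝ) ≤ 27 * F n ^ 3 := by
  classical
  refine le_trans ?_ (box_le (F_one hc n))
  unfold S
  exact_mod_cast Finset.card_filter_le _ _

/-- the energy of a group -/
lemma energy (hc : Conc6 ν κ μ lam g σ τ F L ℓ N G e) (n : ℕ) (Gn : Finset (Ix J))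
    (hG : ∀ a ∈ Gn, gr g a = n) (y : Ix J → ℝ) :
    ∑ k ∈ S e g F n, ‖∑ a ∈ Gn, y a • e a k‖ ^ 2 = ∑ a ∈ Gn, y a ^ 2 := by
  classical
  have h1 : ∀ a ∈ Gn, ∀ b ∈ Gn, ∑ k ∈ S e g F n, inner ℝ (e a k) (e b k) =
      if a = b then 1 else 0 := by
    intro a ha b hb
    have h2 : ∑ k ∈ S e g F n, inner ℝ (e a k) (e b k) = pair (e a) (e b) := by
      unfold pair
      symm
      apply tsum_eq_sum
      intro k hk
      have h3 : e a k = 0 := by
        by_contra h4
        apply hk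
        have := mem_S hc h4
        rwa [hG a ha] at this
      rw [h3, inner_zero_left]
    rw [h2]
    split_ifs with h5
    · exact (hc.orth a b).1 h5
    · exact (hc.orth a b).2 h5
  have h2 : ∀ k, ‖∑ a ∈ Gn, y a • e a k‖ ^ 2 =
      ∑ a ∈ Gn, ∑ b ∈ Gn, y a * (y b * inner ℝ (e a k) (e b k)) := by
    intro k
    rw [← real_inner_self_eq_norm_sq, sum_inner]
    refine Finset.sum_congr rfl fun a _ => ?_
    rw [inner_sum]
    refine Finset.sum_congr rfl fun b _ => ?_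
    rw [real_inner_smul_left, real_inner_smul_right]
  simp_rw [h2]
  rw [Finset.sum_comm]
  refine Finset.sum_congr rfl fun a ha => ?_
  rw [Finset.sum_comm]
  have h3 : ∀ b ∈ Gn, ∑ k ∈ S e g F n, y a * (y b * inner ℝ (e a k) (e b k)) =
      y a * (y b * if a = b then 1 else 0) := by
    intro b hb
    rw [← h1 a ha b hb, Finset.mul_sum, Finset.mul_sum]
  rw [Finset.sum_congr rfl h3]
  rw [Finset.sum_eq_single a]
  · rw [if_pos rfl]; ring
  · intro b _ hb
    rw [if_neg (Ne.symm hb)]; ring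
  · intro h; exact absurd ha h

/-- the family in the frequencies of the group `n` -/
lemma sy_grp (hc : Conc6 ν κ μ lam g σ τ F L ℓ N G e) (n : ℕ) (Gn : Finset (Ix J))
    (hG : ∀ a, a ∈ Gn ↔ gr g a = n) (y : Ix J → ℝ) {k : Z3} (hk : k ∈ S e g F n) :
    sy e y k = ∑ a ∈ Gn, y a • e a k := by
  unfold sy
  apply tsum_eq_sum
  intro a ha
  obtain ⟨b, hb, hbk⟩ := of_S hk
  have h1 : e a k = 0 := by
    by_contra h2
    apply ha
    rw [hG, ← hb]
    exact hc.disj a b k h2 hbk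
  rw [h1, smul_zero]

/-- the absolute values of the coefficients in the group `n` -/
lemma grp_l1 (hc : Conc6 ν κ μ lam g σ τ F L ℓ N G e) (n : ℕ) (Gn : Finset (Ix J))
    (hG : ∀ a, a ∈ Gn ↔ gr g a = n) (y : Ix J → ℝ) {E : ℝ} (hE : ∑ a ∈ Gn, y a ^ 2 ≤ E) :
    ∑ k ∈ S e g F n, ‖sy e y k‖ ≤ √(27 * F n ^ 3) * √E := by
  have h1 : ∑ k ∈ S e g F n, ‖sy e y k‖ ^ 2 ≤ E := by
    refine le_trans (le_of_eq ?_) hE
    rw [← energy hc n Gn (fun a ha => (hG a).1 ha) y]
    refine Finset.sum_congr rfl fun k hk => ?_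
    rw [sy_grp hc n Gn hG y hk]
  have h2 : (∑ k ∈ S e g F n, ‖sy e y k‖) ^ 2 ≤
      ((S e g F n).card : ℝ) * ∑ k ∈ S e g F n, ‖sy e y k‖ ^ 2 := sq_sum_le_card_mul_sum_sq
  have h3 := card_S hc n
  have h4 := F_one hc n
  have h5 : 0 ≤ ∑ k ∈ S e g F n, ‖sy e y k‖ ^ 2 := Finset.sum_nonneg fun _ _ => sq_nonneg _
  have h6 : (∑ k ∈ S e g F n, ‖sy e y k‖) ^ 2 ≤ (27 * F n ^ 3) * E :=
    h2.trans (mul_le_mul h3 h1 h5 (by positivity))
  rw [← Real.sqrt_mul (by positivity)]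
  exact Real.le_sqrt_of_sq_le h6

/-- the sum over all groups -/
lemma sup_le (hc : Conc6 ν κ μ lam g σ τ F L ℓ N G e) (y : Ix J → ℝ) {X : ℝ} (b : ℕ → ℝ)
    (hb : ∀ n, ∑ k ∈ S e g F n, ‖sy e y k‖ ≤ b n)
    (hX : ∀ m, ∑ n ∈ Finset.range m, b n ≤ X) (x : E3) : ‖fieldOf (sy e y) x‖ ≤ X := by
  classical
  have hpart : ∀ u : Finset Z3, ∑ k ∈ u, ‖sy e y k‖ ≤ X := by
    intro u
    -- the groups of the frequencies in `u`
    have h1 : ∃ m : ℕ, ∀ k ∈ u, sy e y k ≠ 0 → ∃ n < m, k ∈ S e g F n := by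
      induction u using Finset.induction_on with
      | empty => exact ⟨0, fun k hk => absurd hk (Finset.notMem_empty k)⟩
      | insert k u hk ih =>
        obtain ⟨m, hm⟩ := ih
        by_cases h2 : sy e y k = 0
        · refine ⟨m, fun k' hk' h3 => ?_⟩
          rcases Finset.mem_insert.1 hk' with h4 | h4
          · subst h4; exact absurd h2 h3
          · exact hm k' h4 h3
        · have h3 : ∃ a, e a k ≠ 0 := by
            by_contra h4
            push Not at h4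
            apply h2
            unfold sy
            simp [h4]
          obtain ⟨a, ha⟩ := h3
          refine ⟨max m (gr g a + 1), fun k' hk' h3 => ?_⟩
          rcases Finset.mem_insert.1 hk' with h4 | h4
          · subst h4
            exact ⟨gr g a, lt_max_of_lt_right (Nat.lt_succ_self _), mem_S hc ha⟩
          · obtain ⟨n, hn, h5⟩ := hm k' h4 h3
            exact ⟨n, lt_max_of_lt_left hn, h5⟩
    obtain ⟨m, hm⟩ := h1
    have h2 : ∑ k ∈ u, ‖sy e y k‖ ≤ ∑ k ∈ (Finset.range m).biUnion (S e g F), ‖sy e y k‖ := by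
      have h3 : ∑ k ∈ u, ‖sy e y k‖ = ∑ k ∈ u.filter (fun k => sy e y k ≠ 0), ‖sy e y k‖ := by
        rw [Finset.sum_filter_of_ne]
        intro k _ h4 h5
        exact h4 (by rw [h5, norm_zero])
      rw [h3]
      apply Finset.sum_le_sum_of_subset_of_nonneg
      · intro k hk
        rw [Finset.mem_filter] at hk
        obtain ⟨n, hn, h5⟩ := hm k hk.1 hk.2
        exact Finset.mem_biUnion.2 ⟨n, Finset.mem_range.2 hn, h5⟩
      · intro k _ _
        exact norm_nonneg _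
    refine h2.trans ?_
    rw [Finset.sum_biUnion]
    · exact (Finset.sum_le_sum fun n _ => hb n).trans (hX m)
    · intro n _ n' _ hnn
      rw [Function.onFun, Finset.disjoint_left]
      intro k hk hk'
      obtain ⟨a, ha, hak⟩ := of_S hk
      obtain ⟨a', ha', hak'⟩ := of_S hk'
      apply hnn
      rw [← ha, ← ha']
      exact hc.disj a a' k hak hak'
  have hs : Summable fun k => ‖sy e y k‖ := summable_of_sum_le (fun _ => norm_nonneg _) hpart
  have h1 : ‖fieldOf (sy e y) x‖ ≤ ∑' k, ‖sy e y k‖ := by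
    unfold fieldOf
    refine tsum_of_norm_bounded hs.hasSum fun k => ?_
    rw [norm_smul]
    exact mul_le_of_le_one_left (norm_nonneg _) (by
      rw [Real.norm_eq_abs]
      exact Real.abs_sin_le_one _)
  exact h1.trans (hs.tsum_le_of_sum_le hpart)

open Pool.Agent.Y710.EP in
/-- the energy of a group and `Yt` -/
lemma grp_Yt (hs : Sq6 κ μ lam Λ M L C ℓ B)
    (hk : Ker g Λ M L C B (fun j a b => A * bil (e a) (e b) (e j))) {T t : ℝ}
    {z : Ix J → ℝ → ℝ} (hz : Rapid (rI L g) T z) (ht : t ∈ Ico 0 T) (n : ℕ) (Gn : Finset (Ix J))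
    (hG : ∀ a, a ∈ Gn ↔ gr g a = n) :
    ∑ a ∈ Gn, (A * z a t) ^ 2 ≤ A ^ 2 * Yt (fun n => z (Sum.inl n)) (wz g z) n t := by
  have hs5 := Pool.Agent.Y6.S.sq65 hs
  have hn := nice_at hk hs5 hz ht
  rw [Yt_eq hs5 hn n, nm_sq]
  have hsq := (hn.pu hs5 n).sq hs5
  have h1 : ∑ a ∈ Gn, (A * z a t) ^ 2 = A ^ 2 * ∑ a ∈ Gn, Pu g n (fun a => z a t) a ^ 2 := by
    rw [Finset.mul_sum]
    refine Finset.sum_congr rfl fun a ha => ?_
    unfold Pu
    rw [if_pos ((hG a).1 ha).ge]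
    ring
  rw [h1]
  gcongr
  exact hsq.sum_le_tsum Gn fun _ _ => sq_nonneg _

theorem t_SUP6 : S_SUP6 := by
  classical
  intro J g σ τ ν κ μ lam Λ M A F L C ℓ N G B e hA hc hs hk T z hz hTI
  obtain ⟨C₀, hC⟩ := hTI
  obtain ⟨D1, hD1, hkF⟩ := hc.κF
  obtain ⟨D2, hD2, hFS⟩ := hc.F_S
  have hμ : 10 ^ 30 ≤ μ := hs.μ_big
  have hμ0 : 0 < μ := lt_of_lt_of_le (by norm_num) hμ
  have hκ0 := hs.κ0
  have hL0 := hs.L0
  have hla : ∀ n, κ ^ (n + 1) * L (n + 1) = μ * (κ ^ n * L n) := by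
    intro n
    rw [hs.L_succ, hs.μ_eq, pow_succ]
    ring
  have hlap : ∀ n, 0 < κ ^ n * L n := by
    intro n
    induction n with
    | zero => simpa using lt_of_lt_of_le one_pos hL0
    | succ n ih => rw [hla n]; positivity
  have hfin : ∀ n, {a : Ix J | gr g a = n}.Finite := by
    intro n
    have h1 : {a : Ix J | gr g a = n} ⊆ Sum.inl '' {n} ∪ Sum.inr '' {j | g j = n} := by
      rintro (m | j) ha
      · exact Or.inl ⟨m, ha, rfl⟩
      · exact Or.inr ⟨j, ha, rfl⟩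
    exact (((Set.finite_singleton n).image _).union ((hk.fin n).image _)).subset h1
  have hC0 : ∀ t ∈ Ico 0 T, 0 ≤ C₀ := by
    intro t ht
    have h1 := hC t ht 0
    rw [pow_zero, one_mul, mul_one] at h1
    have h2 : 0 ≤ T - t := by linarith [ht.2]
    exact le_trans (by positivity) h1
  -- the bound of a group
  set K : ℝ := √27 * A * |C₀| * √D1 * √D2 with hK
  have hK0 : 0 ≤ K := by positivity
  refine ⟨K * 6, fun t ht x => ?_⟩
  set s : ℝ := T - t with hs'
  have hs0 : 0 < s := by rw [hs']; linarith [ht.2]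
  set a : ℕ → ℝ := fun n => √(κ ^ n * L n * s) with ha
  have ha0 : ∀ n, 0 ≤ a n := fun n => Real.sqrt_nonneg _
  have has : ∀ n, a (n + 1) = √μ * a n := by
    intro n
    show √(κ ^ (n + 1) * L (n + 1) * s) = √μ * √(κ ^ n * L n * s)
    rw [hla n, mul_assoc μ, Real.sqrt_mul hμ0.le]
  have hρ : 2 ≤ √μ := by
    rw [show (2 : ℝ) = √(2 ^ 2) by rw [Real.sqrt_sq (by norm_num)]]
    exact Real.sqrt_le_sqrt (by linarith)
  have ha2 : ∀ n, a n ^ 2 = κ ^ n * L n * s := fun n =>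
    Real.sq_sqrt (mul_nonneg (hlap n).le hs0.le)
  have hgrp : ∀ n, ∑ k ∈ S e g F n, ‖sy e (fun a => A * z a t) k‖ ≤
      K / √s * (a n / (1 + a n ^ 2)) := by
    intro n
    have hF1 := F_one hc n
    have h1 := grp_l1 hc n (hfin n).toFinset (fun a => by simp) (fun a => A * z a t)
      (grp_Yt hs hk hz ht n (hfin n).toFinset (fun a => by simp))
    refine h1.trans ?_
    have h2 := hC t ht n
    rw [← hs', ← ha2 n] at h2
    have hY0 : 0 ≤ √(Yt (fun n => z (Sum.inl n)) (wz g z) n t) := Real.sqrt_nonneg _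
    have h3 : √(Yt (fun n => z (Sum.inl n)) (wz g z) n t) ≤ |C₀| * κ ^ n / (1 + a n ^ 2) := by
      rw [le_div_iff₀ (by positivity)]
      refine h2.trans ?_
      gcongr
      exact le_abs_self _
    have h4 : √(A ^ 2 * Yt (fun n => z (Sum.inl n)) (wz g z) n t) =
        A * √(Yt (fun n => z (Sum.inl n)) (wz g z) n t) := by
      rw [Real.sqrt_mul (sq_nonneg A), Real.sqrt_sq hA.le]
    have h5 : √(27 * F n ^ 3) = √27 * (√(F n) * F n) := by
      rw [Real.sqrt_mul (by norm_num), show F n ^ 3 = F n * F n ^ 2 by ring,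
        Real.sqrt_mul (by linarith), Real.sqrt_sq (by linarith)]
    have h6 : κ ^ n * √(F n) ≤ √D1 := by
      have e : κ ^ n * √(F n) = √(κ ^ (2 * n) * F n) := by
        rw [Real.sqrt_mul (by positivity), mul_comm 2 n, pow_mul, Real.sqrt_sq (by positivity)]
      rw [e]
      exact Real.sqrt_le_sqrt (hkF n)
    have h7 : F n ≤ √D2 * (a n / √s) := by
      have e : a n / √s = √(κ ^ n * L n) := by
        show √(κ ^ n * L n * s) / √s = _
        rw [Real.sqrt_mul (hlap n).le, mul_div_assoc, div_self (Real.sqrt_pos.2 hs0).ne', mul_one]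
      rw [e, ← Real.sqrt_mul hD2.le]
      exact Real.le_sqrt_of_sq_le (hFS n)
    rw [h4, h5]
    have ha0n := ha0 n
    have hs00 := Real.sqrt_pos.2 hs0
    calc √27 * (√(F n) * F n) * (A * √(Yt (fun n => z (Sum.inl n)) (wz g z) n t))
        ≤ √27 * (√(F n) * F n) * (A * (|C₀| * κ ^ n / (1 + a n ^ 2))) := by gcongr
      _ = √27 * A * |C₀| * (κ ^ n * √(F n)) * F n / (1 + a n ^ 2) := by ring
      _ ≤ √27 * A * |C₀| * √D1 * (√D2 * (a n / √s)) / (1 + a n ^ 2) := by gcongr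
      _ = _ := by rw [hK]; ring
  have h1 := sup_le hc (fun a => A * z a t) (X := K / √s * 6)
    (fun n => K / √s * (a n / (1 + a n ^ 2))) hgrp (fun m => by
      rw [← Finset.mul_sum]
      have := geo_sum hρ ha0 has m
      gcongr) x
  calc ‖fieldOf (sy e fun a => A * z a t) x‖ * √s ≤ K / √s * 6 * √s := by gcongr
    _ = K * 6 := by
      have := (Real.sqrt_pos.2 hs0).ne'
      field_simp

end conc

end Pool.Agent.Y8.SU
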